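import Mathlib

set_option autoImplicit false

namespace Pool.Agent.Q230.TC

open Finset

/-- vertices -/
abbrev V : Type := Fin 336

/-- weight of special vertices -/
def w (v : V) : ℕ := v.val - 332

/-- total weight -/
def sp (e : Finset V) : ℕ := ∑ v ∈ e, w v

/-- number of special vertices -/
def nsp (e : Finset V) : ℕ := (e.filter (fun v => 333 ≤ v.val)).card

/-- number of vertices in the first part -/
def jx (e : Finset V) : ℕ := (e.filter (fun v => v.val < 138)).card

/-- the class of a set, `0` meaning a non-edge -/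
def cls (m j : ℕ) : ℕ :=
  if m = 0 then (if j ≤ 3 then 1 else if j = 5 then 2 else if 7 ≤ j then 3 else 0)
  else if m = 1 then (if j = 4 ∨ j = 5 then 2 else if 7 ≤ j then 3 else 0)
  else if m = 2 then (if j ≤ 3 then 1 else if 6 ≤ j then 3 else 0)
  else if m = 3 then (if j ≤ 2 then 1 else if j = 4 ∨ j = 5 then 2 else 0)
  else 0

/-- the class read off from a subset of size ten -/
def F (m i : ℕ) : ℕ :=
  if m = 0 then (if i ≤ 3 then 1 else if i ≤ 5 then 2 else 3)
  else if m = 1 then (if i ≤ 5 then 2 else 3)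
  else if m = 2 then (if i ≤ 3 then 1 else 3)
  else (if i ≤ 2 then 1 else 2)

/-- the hypergraph -/
def G : Finset (Finset V) :=
  (Finset.powersetCard 11 Finset.univ).filter (fun e => nsp e ≤ 1 ∧ cls (sp e) (jx e) ≠ 0)

theorem mem_G (e : Finset V) : e ∈ G ↔ e.card = 11 ∧ nsp e ≤ 1 ∧ cls (sp e) (jx e) ≠ 0 := by
  unfold G
  rw [Finset.mem_filter, Finset.mem_powersetCard]
  constructor
  · rintro ⟨⟨_, h⟩, h2⟩; exact ⟨h, h2⟩
  · rintro ⟨h, h2⟩; exact ⟨⟨Finset.subset_univ _, h⟩, h2⟩

theorem sp_zero (R : Finset V) (h : nsp R = 0) : sp R = 0 := by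
  unfold sp
  apply Finset.sum_eq_zero
  intro v hv
  unfold nsp at h
  rw [Finset.card_eq_zero, Finset.filter_eq_empty_iff] at h
  have := h hv
  unfold w
  omega

theorem sp_insert (R : Finset V) (u : V) (hu : u ∉ R) : sp (insert u R) = w u + sp R := by
  unfold sp
  rw [Finset.sum_insert hu]

theorem jx_insert_of_lt (R : Finset V) (u : V) (hu : u ∉ R) (h : u.val < 138) :
    jx (insert u R) = jx R + 1 := by
  unfold jx
  rw [Finset.filter_insert, if_pos h, Finset.card_insert_of_notMem]
  intro hm
  exact hu (Finset.mem_filter.1 hm).1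

theorem jx_insert_of_ge (R : Finset V) (u : V) (h : ¬ u.val < 138) :
    jx (insert u R) = jx R := by
  unfold jx
  rw [Finset.filter_insert, if_neg h]

theorem nsp_insert (R : Finset V) (u : V) (hu : u ∉ R) (h : 333 ≤ u.val) :
    nsp (insert u R) = nsp R + 1 := by
  unfold nsp
  rw [Finset.filter_insert, if_pos h, Finset.card_insert_of_notMem]
  intro hm
  exact hu (Finset.mem_filter.1 hm).1

theorem cls_F1 (m i : ℕ) (h : cls m (i + 1) ≠ 0) : cls m (i + 1) = F m i := by
  unfold cls F at *
  split_ifs at * <;> omega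

theorem cls_F2 (m i : ℕ) (h : cls m i ≠ 0) : cls m i = F m i := by
  unfold cls F at *
  split_ifs at * <;> omega

theorem cls_F3 (m i : ℕ) (h : cls m i ≠ 0) : cls m i = F 0 i := by
  unfold cls F at *
  split_ifs at * <;> omega

theorem class_of_insert (R : Finset V) (u : V) (hu : u ∉ R) (he : insert u R ∈ G) :
    cls (sp (insert u R)) (jx (insert u R)) = F (sp R) (jx R) := by
  rw [mem_G] at he
  obtain ⟨_, h1, h2⟩ := he
  rw [sp_insert R u hu] at h2 ⊢
  by_cases hx : u.val < 138
  · have hw : w u = 0 := by unfold w; omega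
    rw [hw, zero_add, jx_insert_of_lt R u hu hx] at h2 ⊢
    exact cls_F1 _ _ h2
  · rw [jx_insert_of_ge R u hx] at h2 ⊢
    by_cases hs : 333 ≤ u.val
    · rw [nsp_insert R u hu hs] at h1
      have h0 := sp_zero R (by omega)
      rw [h0, add_zero] at h2 ⊢
      exact cls_F3 _ _ h2
    · have hw : w u = 0 := by unfold w; omega
      rw [hw, zero_add] at h2 ⊢
      exact cls_F2 _ _ h2

theorem decomp (e f : Finset V) (he : e.card = 11) (h : (e ∩ f).card = 10) :
    ∃ u, u ∉ e ∩ f ∧ insert u (e ∩ f) = e := by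
  have hc : (e \ (e ∩ f)).card = 1 := by
    rw [Finset.card_sdiff_of_subset Finset.inter_subset_left, he, h]
  obtain ⟨u, hu⟩ := Finset.card_eq_one.1 hc
  have hum : u ∈ e \ (e ∩ f) := by rw [hu]; exact Finset.mem_singleton_self u
  rw [Finset.mem_sdiff] at hum
  refine ⟨u, hum.2, ?_⟩
  apply Finset.eq_of_subset_of_card_le
  · intro x hx
    rw [Finset.mem_insert] at hx
    rcases hx with h1 | h1
    · rw [h1]; exact hum.1
    · exact Finset.inter_subset_left h1
  · rw [Finset.card_insert_of_notMem hum.2, he, h]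

theorem class_adj (e f : Finset V) (he : e ∈ G) (hf : f ∈ G) (h : (e ∩ f).card = 10) :
    cls (sp e) (jx e) = cls (sp f) (jx f) := by
  have he1 := (mem_G e).1 he
  have hf1 := (mem_G f).1 hf
  obtain ⟨u, hu, hue⟩ := decomp e f he1.1 h
  obtain ⟨v, hv, hvf⟩ := decomp f e hf1.1 (by rw [Finset.inter_comm]; exact h)
  rw [Finset.inter_comm f e] at hv hvf
  have h1 := class_of_insert (e ∩ f) u hu (by rw [hue]; exact he)
  have h2 := class_of_insert (e ∩ f) v hv (by rw [hvf]; exact hf)
  rw [hue] at h1
  rw [hvf] at h2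
  rw [h1, h2]

/-- the special vertices -/
def z (i : Fin 3) : V := ⟨333 + i.val, by omega⟩

theorem miss (e : Finset V) (he : e ∈ G) (i : Fin 3) (hz : z i ∈ e) :
    cls (sp e) (jx e) ≠ i.val + 1 := by
  rw [mem_G] at he
  obtain ⟨_, h1, h2⟩ := he
  have hins : insert (z i) (e.erase (z i)) = e := Finset.insert_erase hz
  have hn := nsp_insert (e.erase (z i)) (z i) (Finset.notMem_erase _ _) (by unfold z; simp)
  rw [hins] at hn
  have h0 := sp_zero (e.erase (z i)) (by omega)
  have hs := sp_insert (e.erase (z i)) (z i) (Finset.notMem_erase _ _)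
  rw [hins, h0, add_zero] at hs
  have hw : w (z i) = i.val + 1 := by unfold w z; simp only; omega
  rw [hs, hw] at h2 ⊢
  obtain ⟨i, hi⟩ := i
  simp only at h2 ⊢
  unfold cls at *
  split_ifs at * <;> omega

theorem cls_le (m j : ℕ) : cls m j ≤ 3 := by
  unfold cls
  split_ifs <;> omega

/-- counting edges at a vertex -/
theorem deg_ge (v : V) (P Q : Finset V) (hPQ : Disjoint P Q) (hP : v ∉ P) (hQ : v ∉ Q)
    (J : Finset ℕ)
    (hJ : ∀ j ∈ J, ∀ S1 ∈ powersetCard j P, ∀ S2 ∈ powersetCard (10 - j) Q,
      insert v (S1 ∪ S2) ∈ G) :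
    ∑ j ∈ J, P.card.choose j * Q.card.choose (10 - j) ≤ (G.filter (fun e => v ∈ e)).card := by
  have h1 : ∑ j ∈ J, P.card.choose j * Q.card.choose (10 - j) =
      (J.sigma (fun j => powersetCard j P ×ˢ powersetCard (10 - j) Q)).card := by
    rw [Finset.card_sigma]
    apply Finset.sum_congr rfl
    intro j _
    rw [Finset.card_product, Finset.card_powersetCard, Finset.card_powersetCard]
  rw [h1]
  apply Finset.card_le_card_of_injOn (fun x => insert v (x.2.1 ∪ x.2.2))
  · rintro ⟨j, S1, S2⟩ hx
    simp only [Finset.coe_sigma, Set.mem_sigma_iff, Finset.mem_coe, Finset.mem_product] at hx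
    simp only [Finset.coe_filter, Set.mem_setOf_eq]
    exact ⟨hJ j hx.1 S1 hx.2.1 S2 hx.2.2, Finset.mem_insert_self _ _⟩
  · rintro ⟨j, S1, S2⟩ hx ⟨j', S1', S2'⟩ hx' h
    simp only [Finset.coe_sigma, Set.mem_sigma_iff, Finset.mem_coe, Finset.mem_product,
      Finset.mem_powersetCard] at hx hx'
    simp only at h
    obtain ⟨_, ⟨a1, a2⟩, a3, a4⟩ := hx
    obtain ⟨_, ⟨b1, b2⟩, b3, b4⟩ := hx'
    have hd : ∀ x, x ∈ P → x ∉ Q := fun x h1 h2 => (Finset.disjoint_left.1 hPQ) h1 h2
    have e1 : S1 = S1' := by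
      ext x
      constructor
      · intro hx
        have : x ∈ insert v (S1' ∪ S2') := by
          rw [← h]; exact Finset.mem_insert_of_mem (Finset.mem_union_left _ hx)
        rw [Finset.mem_insert, Finset.mem_union] at this
        rcases this with h2 | h2 | h2
        · exact (hP (h2 ▸ a1 hx)).elim
        · exact h2
        · exact (hd x (a1 hx) (b3 h2)).elim
      · intro hx
        have : x ∈ insert v (S1 ∪ S2) := by
          rw [h]; exact Finset.mem_insert_of_mem (Finset.mem_union_left _ hx)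
        rw [Finset.mem_insert, Finset.mem_union] at this
        rcases this with h2 | h2 | h2
        · exact (hP (h2 ▸ b1 hx)).elim
        · exact h2
        · exact (hd x (b1 hx) (a3 h2)).elim
    have e2 : S2 = S2' := by
      ext x
      constructor
      · intro hx
        have : x ∈ insert v (S1' ∪ S2') := by
          rw [← h]; exact Finset.mem_insert_of_mem (Finset.mem_union_right _ hx)
        rw [Finset.mem_insert, Finset.mem_union] at this
        rcases this with h2 | h2 | h2
        · exact (hQ (h2 ▸ a3 hx)).elim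
        · exact (hd x (b1 h2) (a3 hx)).elim
        · exact h2
      · intro hx
        have : x ∈ insert v (S1 ∪ S2) := by
          rw [h]; exact Finset.mem_insert_of_mem (Finset.mem_union_right _ hx)
        rw [Finset.mem_insert, Finset.mem_union] at this
        rcases this with h2 | h2 | h2
        · exact (hQ (h2 ▸ b3 hx)).elim
        · exact (hd x (a1 h2) (b3 hx)).elim
        · exact h2
    have e3 : j = j' := by rw [← a2, ← b2, e1]
    subst e1 e2 e3
    rfl

/-- the first part -/
def X : Finset V := Finset.univ.filter (fun v => v.val < 138)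

/-- the second part -/
def Y : Finset V := Finset.univ.filter (fun v => 138 ≤ v.val ∧ v.val < 333)

theorem mem_X (v : V) : v ∈ X ↔ v.val < 138 := by unfold X; simp

theorem mem_Y (v : V) : v ∈ Y ↔ (138 ≤ v.val ∧ v.val < 333) := by unfold Y; simp

theorem card_X : X.card = 138 := by decide +kernel

theorem card_Y : Y.card = 195 := by decide +kernel

theorem disj : Disjoint X Y := by
  rw [Finset.disjoint_left]
  intro v h1 h2
  rw [mem_X] at h1
  rw [mem_Y] at h2
  omega

/-- invariants of the sets used in the count -/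
theorem inv (S1 S2 : Finset V) (j : ℕ) (h1 : S1 ⊆ X) (h2 : S1.card = j) (h3 : S2 ⊆ Y) :
    sp (S1 ∪ S2) = 0 ∧ nsp (S1 ∪ S2) = 0 ∧ jx (S1 ∪ S2) = j := by
  have hn : nsp (S1 ∪ S2) = 0 := by
    unfold nsp
    rw [Finset.card_eq_zero, Finset.filter_eq_empty_iff]
    intro v hv
    rw [Finset.mem_union] at hv
    rcases hv with h | h
    · have := (mem_X v).1 (h1 h); omega
    · have := (mem_Y v).1 (h3 h); omega
  refine ⟨sp_zero _ hn, hn, ?_⟩
  unfold jx
  rw [← h2]
  congr 1
  ext v
  rw [Finset.mem_filter, Finset.mem_union]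
  constructor
  · rintro ⟨h | h, h4⟩
    · exact h
    · have := (mem_Y v).1 (h3 h); omega
  · intro h
    exact ⟨Or.inl h, (mem_X v).1 (h1 h)⟩

theorem card_un (S1 S2 : Finset V) (v : V) (j : ℕ) (hj : j ≤ 10) (h1 : S1 ⊆ X) (h2 : S1.card = j)
    (h3 : S2 ⊆ Y) (h4 : S2.card = 10 - j) (hv : v ∉ S1 ∪ S2) :
    (insert v (S1 ∪ S2)).card = 11 := by
  rw [Finset.card_insert_of_notMem hv, Finset.card_union_of_disjoint
    (Finset.disjoint_of_subset_left h1 (Finset.disjoint_of_subset_right h3 disj)), h2, h4]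
  omega

/-- the arithmetic: choose via descending factorials -/
theorem ch (n k : ℕ) : n.choose k = n.descFactorial k / k.factorial :=
  Nat.choose_eq_descFactorial_div_factorial n k

end Pool.Agent.Q230.TC
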