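import Pool.Agent.Q230.TC.Core

set_option autoImplicit false

namespace Pool.Agent.Q230.TC

open Finset

/-- number of edges of `G` at `v` -/
def dg (v : V) : ℕ := (G.filter (fun e => v ∈ e)).card

theorem range_sum (J : Finset ℕ) (f g : ℕ → ℕ) (h : ∀ j ∈ J, f j = g j) :
    ∑ j ∈ J, f j = ∑ j ∈ J, g j := Finset.sum_congr rfl h

/-- choose as a quotient -/
def cc (n k : ℕ) : ℕ := n.descFactorial k / k.factorial

theorem sum_cc (J : Finset ℕ) (a b : ℕ) :
    ∑ j ∈ J, a.choose j * b.choose (10 - j) = ∑ j ∈ J, cc a j * cc b (10 - j) := by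
  apply Finset.sum_congr rfl
  intro j _
  rw [ch, ch]
  rfl

theorem deg_x (v : V) (hv : v ∈ X) :
    ∑ j ∈ ({0, 1, 2, 4, 6, 7, 8, 9, 10} : Finset ℕ), cc 137 j * cc 195 (10 - j) ≤ dg v := by
  have hv' := (mem_X v).1 hv
  have h := deg_ge v (X.erase v) Y
    (Finset.disjoint_of_subset_left (Finset.erase_subset _ _) disj) (Finset.notMem_erase _ _)
    (fun h => (Finset.disjoint_left.1 disj) hv h) ({0, 1, 2, 4, 6, 7, 8, 9, 10} : Finset ℕ) ?_
  · rw [Finset.card_erase_of_mem hv, card_X, card_Y, sum_cc] at h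
    exact h
  · intro j hj S1 hS1 S2 hS2
    rw [Finset.mem_powersetCard] at hS1 hS2
    have hj10 : j ≤ 10 := by
      simp only [Finset.mem_insert, Finset.mem_singleton] at hj; omega
    have hs1 : S1 ⊆ X := hS1.1.trans (Finset.erase_subset _ _)
    have hnv : v ∉ S1 ∪ S2 := by
      rw [Finset.mem_union]
      rintro (h | h)
      · exact (Finset.notMem_erase _ _) (hS1.1 h)
      · exact (Finset.disjoint_left.1 disj) hv (hS2.1 h)
    obtain ⟨i1, i2, i3⟩ := inv S1 S2 j hs1 hS1.2 hS2.1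
    rw [mem_G]
    refine ⟨card_un S1 S2 v j hj10 hs1 hS1.2 hS2.1 hS2.2 hnv, ?_, ?_⟩
    · unfold nsp at i2 ⊢
      rw [Finset.filter_insert, if_neg (by omega), i2]
      omega
    · rw [sp_insert _ _ hnv, jx_insert_of_lt _ _ hnv hv', i1, i3]
      have hw : w v = 0 := by unfold w; omega
      rw [hw]
      unfold cls
      simp only [Finset.mem_insert, Finset.mem_singleton] at hj
      rcases hj with h | h | h | h | h | h | h | h | h <;> rw [h] <;> decide

theorem deg_y (v : V) (hv : v ∈ Y) :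
    ∑ j ∈ ({0, 1, 2, 3, 5, 7, 8, 9, 10} : Finset ℕ), cc 138 j * cc 194 (10 - j) ≤ dg v := by
  have hv' := (mem_Y v).1 hv
  have h := deg_ge v X (Y.erase v)
    (Finset.disjoint_of_subset_right (Finset.erase_subset _ _) disj)
    (fun h => (Finset.disjoint_left.1 disj) h hv) (Finset.notMem_erase _ _)
    ({0, 1, 2, 3, 5, 7, 8, 9, 10} : Finset ℕ) ?_
  · rw [Finset.card_erase_of_mem hv, card_X, card_Y, sum_cc] at h
    exact h
  · intro j hj S1 hS1 S2 hS2
    rw [Finset.mem_powersetCard] at hS1 hS2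
    have hj10 : j ≤ 10 := by
      simp only [Finset.mem_insert, Finset.mem_singleton] at hj; omega
    have hs2 : S2 ⊆ Y := hS2.1.trans (Finset.erase_subset _ _)
    have hnv : v ∉ S1 ∪ S2 := by
      rw [Finset.mem_union]
      rintro (h | h)
      · exact (Finset.disjoint_left.1 disj) (hS1.1 h) hv
      · exact (Finset.notMem_erase _ _) (hS2.1 h)
    obtain ⟨i1, i2, i3⟩ := inv S1 S2 j hS1.1 hS1.2 hs2
    rw [mem_G]
    refine ⟨card_un S1 S2 v j hj10 hS1.1 hS1.2 hs2 hS2.2 hnv, ?_, ?_⟩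
    · unfold nsp at i2 ⊢
      rw [Finset.filter_insert, if_neg (by omega), i2]
      omega
    · rw [sp_insert _ _ hnv, jx_insert_of_ge _ _ (by omega), i1, i3]
      have hw : w v = 0 := by unfold w; omega
      rw [hw]
      unfold cls
      simp only [Finset.mem_insert, Finset.mem_singleton] at hj
      rcases hj with h | h | h | h | h | h | h | h | h <;> rw [h] <;> decide

theorem deg_z (v : V) (hv : 333 ≤ v.val) (J : Finset ℕ)
    (hJ : ∀ j ∈ J, j ≤ 10 ∧ cls (w v) j ≠ 0) :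
    ∑ j ∈ J, cc 138 j * cc 195 (10 - j) ≤ dg v := by
  have h := deg_ge v X Y disj (by rw [mem_X]; omega) (by rw [mem_Y]; omega) J ?_
  · rw [card_X, card_Y, sum_cc] at h
    exact h
  · intro j hj S1 hS1 S2 hS2
    rw [Finset.mem_powersetCard] at hS1 hS2
    have hj10 := hJ j hj
    have hnv : v ∉ S1 ∪ S2 := by
      rw [Finset.mem_union]
      rintro (h | h)
      · have := (mem_X v).1 (hS1.1 h); omega
      · have := (mem_Y v).1 (hS2.1 h); omega
    obtain ⟨i1, i2, i3⟩ := inv S1 S2 j hS1.1 hS1.2 hS2.1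
    rw [mem_G]
    refine ⟨card_un S1 S2 v j hj10.1 hS1.1 hS1.2 hS2.1 hS2.2 hnv, ?_, ?_⟩
    · rw [nsp_insert _ _ hnv hv, i2]
    · rw [sp_insert _ _ hnv, jx_insert_of_ge _ _ (by omega), i1, i3, add_zero]
      exact hj10.2

theorem ar_x : cc 335 10 < 2 * ∑ j ∈ ({0, 1, 2, 4, 6, 7, 8, 9, 10} : Finset ℕ), cc 137 j * cc 195 (10 - j) := by
  decide +kernel

theorem ar_y : cc 335 10 < 2 * ∑ j ∈ ({0, 1, 2, 3, 5, 7, 8, 9, 10} : Finset ℕ), cc 138 j * cc 194 (10 - j) := by
  decide +kernel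

theorem ar_1 : cc 335 10 < 2 * ∑ j ∈ ({4, 5, 7, 8, 9, 10} : Finset ℕ), cc 138 j * cc 195 (10 - j) := by
  decide +kernel

theorem ar_2 : cc 335 10 < 2 * ∑ j ∈ ({0, 1, 2, 3, 6, 7, 8, 9, 10} : Finset ℕ), cc 138 j * cc 195 (10 - j) := by
  decide +kernel

theorem ar_3 : cc 335 10 < 2 * ∑ j ∈ ({0, 1, 2, 4, 5} : Finset ℕ), cc 138 j * cc 195 (10 - j) := by
  decide +kernel

theorem deg_all (v : V) : Nat.choose 335 10 < 2 * dg v := by
  have hcc : Nat.choose 335 10 = cc 335 10 := ch 335 10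
  rw [hcc]
  by_cases hx : v.val < 138
  · have h := deg_x v ((mem_X v).2 hx)
    have := ar_x
    omega
  by_cases hy : v.val < 333
  · have h := deg_y v ((mem_Y v).2 ⟨by omega, hy⟩)
    have := ar_y
    omega
  have hlt := v.isLt
  have hcases : w v = 1 ∨ w v = 2 ∨ w v = 3 := by unfold w; omega
  rcases hcases with h | h | h
  · have h1 := deg_z v (by omega) ({4, 5, 7, 8, 9, 10} : Finset ℕ) (by rw [h]; decide)
    have := ar_1
    omega
  · have h1 := deg_z v (by omega) ({0, 1, 2, 3, 6, 7, 8, 9, 10} : Finset ℕ) (by rw [h]; decide)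
    have := ar_2
    omega
  · have h1 := deg_z v (by omega) ({0, 1, 2, 4, 5} : Finset ℕ) (by rw [h]; decide)
    have := ar_3
    omega

end Pool.Agent.Q230.TC
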